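import Mathlib

/-!
# A holomorphic immersion of `SL(n, ℂ)` into `ℂ^(n^2-1)`

`N_k` is the cofactor of the entry `(k, last)`, `v_k` is this entry, `E_k = exp (2 π i N_k v_k)`,
`u_k = (E_k - 1) / N_k`, `U_k = u_k * ∏_{l > k} E_l`, `G = adj(A) U`.
-/

set_option autoImplicit false

namespace Pool.Agent.H583_Imm

open Complex Finset Matrix

/-- the entire function `(exp t - 1) / t` -/
noncomputable def ph : ℂ → ℂ := dslope Complex.exp 0

theorem ph_diff : Differentiable ℂ ph := by
  have h := (Complex.differentiableOn_dslope (f := Complex.exp) (s := Set.univ) (c := 0)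
    Filter.univ_mem).2 Complex.differentiable_exp.differentiableOn
  exact differentiableOn_univ.1 h

theorem mul_ph (t : ℂ) : t * ph t = exp t - 1 := by
  have := sub_smul_dslope Complex.exp 0 t
  simpa [ph] using this

/-- `c * (t φ(c t)) = exp (c t) - 1` -/
theorem hasDerivAt_ph (c t : ℂ) : HasDerivAt (fun s => s * ph (c * s)) (exp (c * t)) t := by
  by_cases hc : c = 0
  · subst hc
    have h0 : ph 0 = 1 := by
      simp [ph]
    simp only [zero_mul, h0, mul_one, Complex.exp_zero]
    exact hasDerivAt_id' t
  · have h1 : (fun s => s * ph (c * s)) = fun s => (exp (c * s) - 1) / c := by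
      funext s
      rw [eq_div_iff hc, ← mul_ph]
      ring
    rw [h1]
    have h2 : HasDerivAt (fun s => exp (c * s)) (exp (c * t) * c) t := by
      simpa using ((hasDerivAt_id' t).const_mul c).cexp
    have h3 := (h2.sub_const 1).div_const c
    rwa [mul_div_assoc, div_self hc, mul_one] at h3

variable {m : ℕ}

/-- the matrices, as functions -/
abbrev Mat (m : ℕ) := Fin (m + 1) → Fin (m + 1) → ℂ

/-- the cofactors of the last column -/
noncomputable def cof (A : Mat m) (k : Fin (m + 1)) : ℂ :=
  ((Matrix.of A).updateCol (Fin.last m) (Pi.single k 1)).det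

noncomputable def EE (A : Mat m) (k : Fin (m + 1)) : ℂ :=
  exp (2 * Real.pi * I * cof A k * A k (Fin.last m))

noncomputable def uu (A : Mat m) (k : Fin (m + 1)) : ℂ :=
  2 * Real.pi * I * (A k (Fin.last m) * ph (2 * Real.pi * I * cof A k * A k (Fin.last m)))

noncomputable def UU (A : Mat m) (k : Fin (m + 1)) : ℂ := uu A k * ∏ l ∈ univ.filter (fun l => k < l), EE A l

/-- `G = adj(A) U` -/
noncomputable def GG (A : Mat m) : Fin (m + 1) → ℂ := (Matrix.of A).adjugate *ᵥ UU A

theorem cof_mul_uu (A : Mat m) (k : Fin (m + 1)) : cof A k * uu A k = EE A k - 1 := by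
  rw [uu, EE, ← mul_ph]
  ring

theorem cof_eq (A : Mat m) (k : Fin (m + 1)) : cof A k = (Matrix.of A).adjugate (Fin.last m) k := by
  have h := Matrix.cramer_eq_adjugate_mulVec (Matrix.of A) (Pi.single k 1)
  have h2 := congrFun h (Fin.last m)
  rw [Matrix.cramer_apply] at h2
  rw [cof, h2]
  simp [Matrix.mulVec_single]

theorem sum_cof (A : Mat m) : ∑ k, cof A k * A k (Fin.last m) = (Matrix.of A).det := by
  have h := congrFun (congrFun (Matrix.adjugate_mul (Matrix.of A)) (Fin.last m)) (Fin.last m)
  rw [Matrix.mul_apply] at h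
  simp only [cof_eq]
  rw [show (∑ k, (Matrix.of A).adjugate (Fin.last m) k * A k (Fin.last m)) =
    ∑ k, (Matrix.of A).adjugate (Fin.last m) k * (Matrix.of A) k (Fin.last m) from rfl, h]
  simp

theorem prod_EE (A : Mat m) : ∏ k, EE A k = exp (2 * Real.pi * I * (Matrix.of A).det) := by
  simp only [EE]
  rw [← Complex.exp_sum, ← sum_cof, Finset.mul_sum]
  congr 1
  refine Finset.sum_congr rfl fun k _ => ?_
  ring

/-- `∑ N_k U_k = ∏ E_k - 1` -/
theorem sum_cof_UU (A : Mat m) : ∑ k, cof A k * UU A k = exp (2 * Real.pi * I * (Matrix.of A).det) - 1 := by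
  have h := Finset.prod_add_ordered (univ : Finset (Fin (m + 1))) (fun k => EE A k) (fun k => 1 - EE A k)
  simp only [add_sub_cancel, Finset.prod_const_one, mul_one] at h
  rw [prod_EE] at h
  have h2 : ∑ k, cof A k * UU A k = -∑ k, (1 - EE A k) * ∏ l ∈ univ.filter (fun l => k < l), EE A l := by
    rw [← Finset.sum_neg_distrib]
    refine Finset.sum_congr rfl fun k _ => ?_
    rw [UU, ← mul_assoc, cof_mul_uu]
    ring
  rw [h2]
  linear_combination h

theorem GG_last (A : Mat m) : GG A (Fin.last m) = exp (2 * Real.pi * I * (Matrix.of A).det) - 1 := by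
  rw [← sum_cof_UU, GG, Matrix.mulVec, dotProduct]
  simp only [cof_eq]

theorem mul_GG (A : Mat m) : (Matrix.of A) *ᵥ GG A = (Matrix.of A).det • UU A := by
  rw [GG, Matrix.mulVec_mulVec, Matrix.mul_adjugate, Matrix.smul_mulVec, Matrix.one_mulVec]

/-! ### Differentiability -/

theorem prod_diff {E ι : Type} [NormedAddCommGroup E] [NormedSpace ℂ E] (s : Finset ι) {f : ι → E → ℂ}
    (h : ∀ i, Differentiable ℂ (f i)) : Differentiable ℂ (fun x => ∏ i ∈ s, f i x) := by
  classical
  induction s using Finset.induction_on with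
  | empty => simp
  | insert a s ha ih =>
    simp only [Finset.prod_insert ha]
    exact (h a).mul ih

theorem det_diff {E : Type} [NormedAddCommGroup E] [NormedSpace ℂ E]
    {B : E → Matrix (Fin (m + 1)) (Fin (m + 1)) ℂ} (hB : ∀ i j, Differentiable ℂ (fun A => B A i j)) :
    Differentiable ℂ (fun A => (B A).det) := by
  simp only [Matrix.det_apply]
  exact Differentiable.fun_sum fun σ _ => Differentiable.fun_const_smul (prod_diff _ fun i => hB _ _) _

theorem entry_diff (i j : Fin (m + 1)) : Differentiable ℂ (fun A : Mat m => A i j) := by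
  fun_prop

theorem cof_diff (k : Fin (m + 1)) : Differentiable ℂ (fun A : Mat m => cof A k) := by
  refine det_diff fun i j => ?_
  simp only [Matrix.updateCol_apply]
  by_cases h : j = Fin.last m
  · simp only [h, if_true]
    exact differentiable_const _
  · simp only [h, if_false]
    exact entry_diff i j

theorem adj_diff (i j : Fin (m + 1)) :
    Differentiable ℂ (fun A : Mat m => (Matrix.of A).adjugate i j) := by
  simp only [Matrix.adjugate_apply]
  refine det_diff fun a b => ?_
  simp only [Matrix.updateRow_apply]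
  by_cases h : a = j
  · simp only [h, if_true]
    exact differentiable_const _
  · simp only [h, if_false]
    exact entry_diff a b

theorem EE_diff (k : Fin (m + 1)) : Differentiable ℂ (fun A : Mat m => EE A k) := by
  have h1 := cof_diff (m := m) k
  have h2 := entry_diff (m := m) k (Fin.last m)
  unfold EE
  exact ((h1.const_mul _).mul h2).cexp

theorem uu_diff (k : Fin (m + 1)) : Differentiable ℂ (fun A : Mat m => uu A k) := by
  have h1 := cof_diff (m := m) k
  have h2 := entry_diff (m := m) k (Fin.last m)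
  unfold uu
  exact (h2.mul (ph_diff.comp ((h1.const_mul _).mul h2))).const_mul _

theorem UU_diff (k : Fin (m + 1)) : Differentiable ℂ (fun A : Mat m => UU A k) := by
  unfold UU
  exact (uu_diff k).mul (prod_diff _ fun i => EE_diff i)

theorem GG_diff (i : Fin (m + 1)) : Differentiable ℂ (fun A : Mat m => GG A i) := by
  simp only [GG, Matrix.mulVec, dotProduct]
  exact Differentiable.fun_sum fun k _ => (adj_diff i k).mul (UU_diff k)

/-! ### The derivative along matrices supported in the last column -/

theorem cof_line (A X : Mat m) (hX : ∀ i j, j ≠ Fin.last m → X i j = 0) (t : ℂ) (k : Fin (m + 1)) :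
    cof (A + t • X) k = cof A k := by
  unfold cof
  congr 1
  ext i j
  simp only [Matrix.updateCol_apply]
  by_cases h : j = Fin.last m
  · simp [h]
  · simp [h, hX i j h]

theorem hasDerivAt_EE (A X : Mat m) (hX : ∀ i j, j ≠ Fin.last m → X i j = 0) (k : Fin (m + 1)) :
    HasDerivAt (fun t : ℂ => EE (A + t • X) k)
      (EE A k * (2 * Real.pi * I * cof A k * X k (Fin.last m))) 0 := by
  have h1 : (fun t : ℂ => EE (A + t • X) k) = fun t =>
      exp (2 * Real.pi * I * cof A k * (A k (Fin.last m) + t * X k (Fin.last m))) := by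
    funext t
    rw [EE, cof_line A X hX]
    simp
  rw [h1]
  have h2 : HasDerivAt (fun t : ℂ => 2 * Real.pi * I * cof A k * (A k (Fin.last m) + t * X k (Fin.last m)))
      (2 * Real.pi * I * cof A k * X k (Fin.last m)) 0 := by
    have := ((((hasDerivAt_id' (0 : ℂ)).mul_const (X k (Fin.last m))).const_add
      (A k (Fin.last m))).const_mul (2 * Real.pi * I * cof A k))
    simpa using this
  have h3 := h2.cexp
  simpa [EE] using h3

theorem hasDerivAt_uu (A X : Mat m) (hX : ∀ i j, j ≠ Fin.last m → X i j = 0) (k : Fin (m + 1)) :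
    HasDerivAt (fun t : ℂ => uu (A + t • X) k)
      (2 * Real.pi * I * (EE A k * X k (Fin.last m))) 0 := by
  have h1 : (fun t : ℂ => uu (A + t • X) k) = fun t => 2 * Real.pi * I *
      ((fun s => s * ph ((2 * Real.pi * I * cof A k) * s)) (A k (Fin.last m) + t * X k (Fin.last m))) := by
    funext t
    rw [uu, cof_line A X hX]
    simp
  rw [h1]
  have h2 : HasDerivAt (fun t : ℂ => A k (Fin.last m) + t * X k (Fin.last m)) (X k (Fin.last m)) 0 := by
    simpa using ((hasDerivAt_id' (0 : ℂ)).mul_const (X k (Fin.last m))).const_add (A k (Fin.last m))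
  have h3 : HasDerivAt (fun s => s * ph ((2 * Real.pi * I * cof A k) * s)) (EE A k)
      (A k (Fin.last m) + 0 * X k (Fin.last m)) := by
    rw [zero_mul, add_zero, EE]
    exact hasDerivAt_ph _ _
  exact (h3.comp (0 : ℂ) h2).const_mul _

theorem EE_ne (A : Mat m) (k : Fin (m + 1)) : EE A k ≠ 0 := Complex.exp_ne_zero _

/-- if the derivative of `U` along `X` vanishes, then `X = 0` -/
theorem key (A X : Mat m) (hX : ∀ i j, j ≠ Fin.last m → X i j = 0)
    (h : ∀ k, HasDerivAt (fun t : ℂ => UU (A + t • X) k) 0 0) : X = 0 := by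
  have hw : ∀ k : Fin (m + 1), X k (Fin.last m) = 0 := by
    intro k
    induction k using (wellFounded_gt (α := Fin (m + 1))).induction with
    | _ k ih =>
    have hE : ∀ (t : ℂ) (l : Fin (m + 1)), k < l → EE (A + t • X) l = EE A l := by
      intro t l hl
      rw [EE, EE, cof_line A X hX]
      simp [ih l hl]
    have h1 : (fun t : ℂ => UU (A + t • X) k) =
        fun t => uu (A + t • X) k * ∏ l ∈ univ.filter (fun l => k < l), EE A l := by
      funext t
      rw [UU]
      congr 1
      refine Finset.prod_congr rfl fun l hl => hE t l ?_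
      exact (Finset.mem_filter.1 hl).2
    have h2 := h k
    rw [h1] at h2
    have h3 := (hasDerivAt_uu A X hX k).mul_const (∏ l ∈ univ.filter (fun l => k < l), EE A l)
    have h4 := h3.unique h2
    have h5 : (∏ l ∈ univ.filter (fun l => k < l), EE A l) ≠ 0 :=
      Finset.prod_ne_zero_iff.2 fun l _ => EE_ne A l
    have h6 : (2 * Real.pi * I : ℂ) ≠ 0 := by simp [Real.pi_ne_zero]
    have h7 := (mul_eq_zero.1 h4).resolve_right h5
    have h8 := (mul_eq_zero.1 h7).resolve_left h6
    exact (mul_eq_zero.1 h8).resolve_left (EE_ne A k)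
  funext i j
  by_cases hj : j = Fin.last m
  · rw [hj]; exact hw i
  · exact hX i j hj

/-! ### The immersion -/

/-- the map: the first `m` columns and the first `m` entries of `adj(A) U` -/
noncomputable def FF (A : Mat m) : (Fin (m + 1) × Fin m → ℂ) × (Fin m → ℂ) :=
  (fun p => A p.1 p.2.castSucc, fun j => GG A j.castSucc)

theorem FF_diff : Differentiable ℂ (FF (m := m)) := by
  refine Differentiable.prodMk ?_ ?_
  · rw [differentiable_pi]
    intro p
    exact entry_diff _ _
  · rw [differentiable_pi]
    intro j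
    exact GG_diff _

theorem line_hasDerivAt (A X : Mat m) {F : Mat m → ℂ} (hF : Differentiable ℂ F) :
    HasDerivAt (fun t : ℂ => F (A + t • X)) (fderiv ℂ F A X) 0 := by
  have h3 : HasFDerivAt F (fderiv ℂ F A) (A + (0 : ℂ) • X) := by
    rw [zero_smul, add_zero]
    exact (hF A).hasFDerivAt
  have h4 : HasDerivAt (fun t : ℂ => A + t • X) X 0 := by
    have := ((hasDerivAt_id' (0 : ℂ)).smul_const X).const_add A
    simpa using this
  exact h3.comp_hasDerivAt (0 : ℂ) h4

theorem detf_diff : Differentiable ℂ (fun A : Mat m => (Matrix.of A).det) :=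
  det_diff fun i j => entry_diff i j

/-- **`FF` restricts to an immersion of `SL(m+1, ℂ)`.** -/
theorem immersion (A : Mat m) (hA : (Matrix.of A).det = 1) (X : Mat m)
    (hT : fderiv ℂ (fun A : Mat m => (Matrix.of A).det) A X = 0) (hX : fderiv ℂ FF A X = 0) : X = 0 := by
  have h0 : HasFDerivAt FF (fderiv ℂ FF A) A := (FF_diff A).hasFDerivAt
  have hfst : ∀ p : Fin (m + 1) × Fin m, fderiv ℂ (fun A : Mat m => (FF A).1 p) A X = 0 := by
    intro p
    have h1 := hasFDerivAt_pi'.1 h0.fst p
    rw [h1.fderiv]
    simp [hX]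
  have hsnd : ∀ j : Fin m, fderiv ℂ (fun A : Mat m => (FF A).2 j) A X = 0 := by
    intro j
    have h1 := hasFDerivAt_pi'.1 h0.snd j
    rw [h1.fderiv]
    simp [hX]
  have hX' : ∀ i j, j ≠ Fin.last m → X i j = 0 := by
    intro i j hj
    obtain ⟨l, rfl⟩ := Fin.exists_castSucc_eq.2 hj
    have h := hfst (i, l)
    have h2 : HasDerivAt (fun t : ℂ => (A + t • X) i l.castSucc) (X i l.castSucc) 0 := by
      have := ((hasDerivAt_id' (0 : ℂ)).mul_const (X i l.castSucc)).const_add (A i l.castSucc)
      simpa using this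
    have h3 := line_hasDerivAt A X (entry_diff (m := m) i l.castSucc)
    rw [h2.unique h3]
    exact h
  -- the derivative of `G` along `X` vanishes
  have hG : ∀ i, HasDerivAt (fun t : ℂ => GG (A + t • X) i) 0 0 := by
    intro i
    refine Fin.lastCases ?_ (fun j => ?_) i
    · have h1 : (fun t : ℂ => GG (A + t • X) (Fin.last m)) =
          fun t => exp (2 * Real.pi * I * (Matrix.of (A + t • X)).det) - 1 := by
        funext t
        exact GG_last _
      rw [h1]
      have h2 := line_hasDerivAt A X (detf_diff (m := m))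
      rw [hT] at h2
      have h3 := ((h2.const_mul (2 * Real.pi * I : ℂ)).cexp).sub_const 1
      simpa using h3
    · have h1 := line_hasDerivAt A X (GG_diff (m := m) j.castSucc)
      have h2 := hsnd j
      simp only [FF] at h2
      rwa [h2] at h1
  have hdet := line_hasDerivAt A X (detf_diff (m := m))
  rw [hT] at hdet
  refine key A X hX' fun k => ?_
  have hU := line_hasDerivAt A X (UU_diff (m := m) k)
  -- differentiate `M G = det(M) U`
  have e1 : (fun t : ℂ => ∑ j, (A + t • X) k j * GG (A + t • X) j) =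
      fun t => (Matrix.of (A + t • X)).det * UU (A + t • X) k := by
    funext t
    have := congrFun (mul_GG (A + t • X)) k
    simpa [Matrix.mulVec, dotProduct] using this
  have e2 : HasDerivAt (fun t : ℂ => ∑ j, (A + t • X) k j * GG (A + t • X) j)
      (∑ j, (X k j * GG A j + A k j * 0)) 0 := by
    refine HasDerivAt.fun_sum fun j _ => ?_
    have h2 : HasDerivAt (fun t : ℂ => (A + t • X) k j) (X k j) 0 := by
      have := ((hasDerivAt_id' (0 : ℂ)).mul_const (X k j)).const_add (A k j)
      simpa using this
    refine HasDerivAt.congr_deriv (h2.mul (hG j)) ?_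
    simp
  have e3 : HasDerivAt (fun t : ℂ => (Matrix.of (A + t • X)).det * UU (A + t • X) k)
      (0 * UU A k + 1 * fderiv ℂ (fun A : Mat m => UU A k) A X) 0 := by
    refine HasDerivAt.congr_deriv (hdet.mul hU) ?_
    simp [hA]
  rw [e1] at e2
  have e4 := e2.unique e3
  have hGl : GG A (Fin.last m) = 0 := by
    rw [GG_last, hA, mul_one, Complex.exp_two_pi_mul_I, sub_self]
  have e5 : ∑ j, (X k j * GG A j + A k j * 0) = 0 := by
    refine Finset.sum_eq_zero fun j _ => ?_
    rw [mul_zero, add_zero]
    by_cases hj : j = Fin.last m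
    · rw [hj, hGl, mul_zero]
    · rw [hX' k j hj, zero_mul]
  rw [e5, zero_mul, zero_add, one_mul] at e4
  rw [← e4] at hU
  exact hU

end Pool.Agent.H583_Imm
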